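import Pool.Agent.Y755.FK.Stm
import Pool.Agent.H378R2.M1a

/-!
# Project FK (helper755), part LUP (helper844): upper bound of `L(s, χ)` for `1/2 ≤ Re s ≤ 3`
-/

set_option autoImplicit false

namespace Pool.Agent.Y844.FK

open Pool.Agent.Y755.FK
open Pool.Agent.H307R2 (LFunction_eq TM TM_norm_le Ech Ech_norm_le)
open Pool.Agent.H378R2.M1 (sum_rpow_le)

theorem t_LUP : S_LUP := by
  refine ⟨8, fun q _ χ hχ s hs1 hs2 => ?_⟩
  have hσ0 : 0 < s.re := by linarith
  have hq1 : (1 : ℝ) ≤ q := by exact_mod_cast Nat.one_le_iff_ne_zero.2 (NeZero.ne q)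
  set Q : ℝ := (q : ℝ) * (|s.im| + 3) with hQdef
  have hQ : 3 ≤ Q := by
    have := abs_nonneg s.im
    rw [hQdef]
    nlinarith
  have hQ0 : 0 < Q := by linarith
  set m : ℝ := max 0 (1 - s.re) with hm
  have hm0 : 0 ≤ m := le_max_left _ _
  have hm1 : m ≤ 1 / 2 := max_le (by norm_num) (by linarith)
  have hlQ : 1 ≤ Real.log Q := by
    rw [← Real.log_exp 1]
    apply Real.log_le_log (Real.exp_pos _)
    have := Real.exp_one_lt_d9
    linarith
  set N : ℕ := ⌈Q⌉₊ with hN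
  have hNQ : Q ≤ (N : ℝ) := Nat.le_ceil _
  have hN1 : 1 ≤ N := Nat.one_le_ceil_iff.2 hQ0
  have hN0 : (0 : ℝ) < N := by exact_mod_cast hN1
  have hN2 : (N : ℝ) ≤ 2 * Q := by
    have := (Nat.ceil_lt_add_one hQ0.le).le
    linarith
  have hlogN : Real.log N ≤ 1 + Real.log Q := by
    calc Real.log N ≤ Real.log (2 * Q) := Real.log_le_log hN0 hN2
      _ = Real.log 2 + Real.log Q := Real.log_mul (by norm_num) hQ0.ne'
      _ ≤ _ := by
        have := Real.log_two_lt_d9
        linarith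
  have hlogN0 : 0 ≤ Real.log N := Real.log_nonneg (by exact_mod_cast hN1)
  have hNm : Real.exp (m * Real.log N) ≤ 2 * Q ^ m := by
    have e : Real.exp (m * Real.log N) = (N : ℝ) ^ m := by
      rw [Real.rpow_def_of_pos hN0]; congr 1; ring
    rw [e]
    calc (N : ℝ) ^ m ≤ (2 * Q) ^ m := Real.rpow_le_rpow hN0.le hN2 hm0
      _ = 2 ^ m * Q ^ m := Real.mul_rpow (by norm_num) hQ0.le
      _ ≤ 2 * Q ^ m := by
        gcongr
        calc (2 : ℝ) ^ m ≤ 2 ^ (1 : ℝ) :=
              Real.rpow_le_rpow_of_exponent_le (by norm_num) (by linarith)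
          _ = 2 := Real.rpow_one 2
  have hQm : 1 ≤ Q ^ m := Real.one_le_rpow (by linarith) hm0
  rw [LFunction_eq hχ hN1 hσ0]
  have hA : ‖∑ n ∈ Finset.Icc 1 N, χ (n : ZMod q) * (n : ℂ) ^ (-s)‖ ≤
      2 * Q ^ m * (2 + Real.log Q) := by
    calc ‖∑ n ∈ Finset.Icc 1 N, χ (n : ZMod q) * (n : ℂ) ^ (-s)‖
        ≤ ∑ n ∈ Finset.Icc 1 N, (n : ℝ) ^ (-s.re) := by
          refine norm_sum_le_of_le _ fun n hn => ?_
          rw [Finset.mem_Icc] at hn
          have hn0 : 0 < n := by omega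
          rw [norm_mul, Complex.norm_natCast_cpow_of_pos hn0, Complex.neg_re]
          have := χ.norm_le_one (n : ZMod q)
          have h0 : (0 : ℝ) ≤ (n : ℝ) ^ (-s.re) := by positivity
          calc ‖χ (n : ZMod q)‖ * (n : ℝ) ^ (-s.re) ≤ 1 * (n : ℝ) ^ (-s.re) :=
                mul_le_mul_of_nonneg_right this h0
            _ = _ := one_mul _
      _ ≤ Real.exp (m * Real.log N) * (1 + Real.log N) := by
          apply sum_rpow_le (by positivity)
          exact mul_le_mul_of_nonneg_right (le_max_right _ _) hlogN0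
      _ ≤ 2 * Q ^ m * (2 + Real.log Q) := by
          apply mul_le_mul hNm (by linarith) (by linarith) (by positivity)
  have hB : ‖s * TM N (Ech χ N) s‖ ≤ 2 * Q ^ m := by
    have hs3 : ‖s‖ ≤ |s.im| + 3 := by
      have := Complex.norm_le_abs_re_add_abs_im s
      rw [abs_of_pos hσ0] at this
      linarith
    calc ‖s * TM N (Ech χ N) s‖ = ‖s‖ * ‖TM N (Ech χ N) s‖ := norm_mul _ _
      _ ≤ (|s.im| + 3) * (q * ((N : ℝ) ^ (-s.re) / s.re)) :=
          mul_le_mul hs3 (TM_norm_le hN1 (Ech_norm_le hχ N) hσ0) (norm_nonneg _) (by positivity)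
      _ = Q * ((N : ℝ) ^ (-s.re) / s.re) := by rw [hQdef]; ring
      _ ≤ Q * (Q ^ (-s.re) / (1 / 2)) := by
          have : (N : ℝ) ^ (-s.re) ≤ Q ^ (-s.re) :=
            Real.rpow_le_rpow_of_nonpos hQ0 hNQ (by linarith)
          gcongr
      _ = 2 * Q ^ (1 - s.re) := by
          have : Q ^ (1 - s.re) = Q * Q ^ (-s.re) := by
            rw [sub_eq_add_neg, Real.rpow_add hQ0, Real.rpow_one]
          rw [this]; ring
      _ ≤ 2 * Q ^ m := by
          gcongr
          · linarith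
          · exact le_max_right _ _
  calc ‖∑ n ∈ Finset.Icc 1 N, χ (n : ZMod q) * (n : ℂ) ^ (-s) + s * TM N (Ech χ N) s‖
      ≤ 2 * Q ^ m * (2 + Real.log Q) + 2 * Q ^ m := (norm_add_le _ _).trans (add_le_add hA hB)
    _ = 6 * Q ^ m + 2 * Real.log Q * Q ^ m := by ring
    _ ≤ 6 * Real.log Q * Q ^ m + 2 * Real.log Q * Q ^ m := by
        have : 1 * Q ^ m ≤ Real.log Q * Q ^ m := by gcongr
        nlinarith
    _ = 8 * Real.log Q * Q ^ m := by ring

end Pool.Agent.Y844.FK
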