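import Pool.Agent.Y755.FK.Stm
import Pool.Agent.H378R2.M1b
import Pool.Agent.H705R2.MLogB

/-!
# Project FK (helper755), part SIEG (helper844): zero-free region from Siegel's theorem
-/

set_option autoImplicit false

open Filter Topology

namespace Pool.Agent.Y844.FK

open Pool.Agent.Y755.FK

theorem t_SIEG : S_SIEG := by
  intro A
  obtain ⟨d1, d2, κ, hd1, hd1', hd2, hd2', hκ, hz, -⟩ := Pool.Agent.H378R2.M1.nzr
  obtain ⟨C, hC, -, -, hL⟩ := Pool.Agent.H378R2.M1.L_lip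
  set ε : ℝ := 1 / (100 * ((A : ℝ) + 1)) with hε
  have hε0 : 0 < ε := by positivity
  obtain ⟨c₀, hc₀, hS⟩ := Pool.Agent.H705R2.MSW.siegel_all hε0
  -- conditions for large `u`
  have e1 : ∀ᶠ u : ℝ in atTop, 4 ≤ u ^ (1 / 20 : ℝ) :=
    (tendsto_rpow_atTop (by norm_num : (0 : ℝ) < 1 / 20)).eventually_ge_atTop 4
  have e2 : ∀ᶠ u : ℝ in atTop, (A : ℝ) * Real.log u ≤ u ^ (1 / 20 : ℝ) := by
    have h := (isLittleO_log_rpow_atTop (by norm_num : (0 : ℝ) < 1 / 20)).bound
      (show (0 : ℝ) < 1 / ((A : ℝ) + 1) by positivity)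
    filter_upwards [h, eventually_ge_atTop (1 : ℝ)] with u hu hu1
    rw [Real.norm_of_nonneg (Real.log_nonneg hu1),
      Real.norm_of_nonneg (Real.rpow_nonneg (by linarith) _)] at hu
    have hA : (0 : ℝ) ≤ A := Nat.cast_nonneg _
    have hl := Real.log_nonneg hu1
    have hr : 0 ≤ u ^ (1 / 20 : ℝ) := Real.rpow_nonneg (by linarith) _
    calc (A : ℝ) * Real.log u ≤ ((A : ℝ) + 1) * Real.log u := by nlinarith
      _ ≤ ((A : ℝ) + 1) * (1 / ((A : ℝ) + 1) * u ^ (1 / 20 : ℝ)) := by gcongr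
      _ = u ^ (1 / 20 : ℝ) := by field_simp
  have e3 : ∀ᶠ u : ℝ in atTop, (κ + C * d1) / c₀ ≤ u ^ (17 / 50 : ℝ) :=
    (tendsto_rpow_atTop (by norm_num : (0 : ℝ) < 17 / 50)).eventually_ge_atTop _
  obtain ⟨u0, hu0⟩ := (e1.and (e2.and (e3.and (eventually_ge_atTop (1 : ℝ))))).exists_forall_of_atTop
  refine ⟨d2, max u0 1, hd2, le_max_right _ _, fun u hu q _ χ h2 h1 hq s hs hst => ?_⟩
  obtain ⟨k1, k2, k3, hu1⟩ := hu0 u ((le_max_left _ _).trans hu)
  rcases le_or_gt 1 s.re with hs1 | hs1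
  · exact DirichletCharacter.LFunction_ne_zero_of_one_le_re χ (Or.inl h1) hs1
  have hup : 0 < u := by linarith
  set l : ℝ := u ^ (1 / 20 : ℝ) with hl
  have hlp : 0 < l := by linarith
  have hl18 : l ^ 18 = u ^ (9 / 10 : ℝ) := by
    rw [hl, ← Real.rpow_natCast, ← Real.rpow_mul hup.le]; norm_num
  have hl7 : l ^ 7 = u ^ (7 / 20 : ℝ) := by
    rw [hl, ← Real.rpow_natCast, ← Real.rpow_mul hup.le]; norm_num
  have hqp : (0 : ℝ) < q := by exact_mod_cast NeZero.pos q
  have hlq : Real.log q ≤ l := by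
    have : Real.log q ≤ Real.log (u ^ A) := Real.log_le_log hqp hq
    rw [Real.log_pow] at this
    exact this.trans k2
  have hlow : κ / l ^ 7 ≤ ‖DirichletCharacter.LFunction χ ((1 + d1 / l ^ 9 : ℝ) : ℂ)‖ := by
    have a1 : c₀ * u ^ (-(1 / 100) : ℝ) ≤ ‖DirichletCharacter.LFunction χ 1‖ := by
      refine le_trans ?_ (hS q χ h2 h1)
      gcongr
      calc u ^ (-(1 / 100) : ℝ) ≤ (u ^ A) ^ (-ε) := by
            rw [← Real.rpow_natCast, ← Real.rpow_mul hup.le]
            apply Real.rpow_le_rpow_of_exponent_le hu1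
            rw [hε]
            have : (A : ℝ) * (1 / (100 * ((A : ℝ) + 1))) ≤ 1 / 100 := by
              rw [mul_one_div, div_le_div_iff₀ (by positivity) (by norm_num)]
              nlinarith [(Nat.cast_nonneg A : (0 : ℝ) ≤ A)]
            linarith
        _ ≤ (q : ℝ) ^ (-ε) := Real.rpow_le_rpow_of_nonpos hqp hq (by linarith)
    have hpos : 0 ≤ d1 / l ^ 9 := by positivity
    have hle : d1 / l ^ 9 ≤ 1 / 2 := by
      rw [div_le_iff₀ (by positivity)]
      have : (1 : ℝ) ≤ l ^ 9 := one_le_pow₀ (by linarith)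
      nlinarith
    have a2 := hL l k1 q χ h1 hlq ((1 + d1 / l ^ 9 : ℝ) : ℂ) 1 (by
        rw [Complex.ofReal_re]
        have : 0 ≤ 1 / (2 * l) := by positivity
        linarith) (by rw [Complex.ofReal_re]; linarith) (by
        rw [Complex.one_re]
        have : 0 ≤ 1 / (2 * l) := by positivity
        linarith) (by rw [Complex.one_re]; norm_num) 0 (by rw [Complex.ofReal_im]; simp)
        (by simp) (by
          rw [zero_add]
          have : Real.log 3 ≤ 3 - 1 := Real.log_le_sub_one_of_pos (by norm_num)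
          linarith)
    have a3 : ‖((1 + d1 / l ^ 9 : ℝ) : ℂ) - 1‖ = d1 / l ^ 9 := by
      have : ((1 + d1 / l ^ 9 : ℝ) : ℂ) - 1 = ((d1 / l ^ 9 : ℝ) : ℂ) := by push_cast; ring
      rw [this, Complex.norm_real, Real.norm_of_nonneg hpos]
    rw [a3] at a2
    have a4 : ‖DirichletCharacter.LFunction χ 1‖ -
        ‖DirichletCharacter.LFunction χ ((1 + d1 / l ^ 9 : ℝ) : ℂ)‖ ≤ C * l ^ 2 * (d1 / l ^ 9) := by
      refine le_trans ?_ a2
      rw [norm_sub_rev]
      exact norm_sub_norm_le _ _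
    have a5 : C * l ^ 2 * (d1 / l ^ 9) = C * d1 / l ^ 7 := by
      field_simp
    rw [a5] at a4
    have a6 : (κ + C * d1) / l ^ 7 ≤ c₀ * u ^ (-(1 / 100) : ℝ) := by
      rw [div_le_iff₀ (by positivity), hl7, mul_assoc, ← Real.rpow_add hup]
      rw [div_le_iff₀ hc₀] at k3
      have : (-(1 / 100) + 7 / 20 : ℝ) = 17 / 50 := by norm_num
      rw [this]
      exact k3.trans_eq (mul_comm _ _)
    have a7 : (κ + C * d1) / l ^ 7 = κ / l ^ 7 + C * d1 / l ^ 7 := add_div _ _ _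
    linarith
  have hcl : |s.re - 1| ≤ d2 / l ^ 18 := by
    rw [abs_of_neg (by linarith), hl18]
    have : d2 * u ^ (-(9 / 10) : ℝ) = d2 / u ^ (9 / 10 : ℝ) := by
      rw [Real.rpow_neg hup.le]
      exact (div_eq_mul_inv _ _).symm
    rw [← this]
    linarith
  have hlog : Real.log (2 * |s.im| + 3) ≤ l := by
    rw [Real.log_le_iff_le_exp (by positivity)]
    have hx : (3 : ℝ) ≤ Real.exp (l / 2) := by
      have := Real.add_one_le_exp (l / 2)
      linarith
    have hx2 : Real.exp l = Real.exp (l / 2) * Real.exp (l / 2) := by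
      rw [← Real.exp_add]; congr 1; ring
    rw [hx2]
    nlinarith
  exact (hz l k1 q χ h1 hlq (fun _ => hlow) s hcl hlog).1

end Pool.Agent.Y844.FK
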